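import Pool.Agent.helper21.OD.SpecA

/-!
# Project OD, row EUC: Euclidean division
-/

namespace Pool.Agent.OD

private theorem EUC_norm (t : ℤ) (z : Oz t) :
    QuadraticAlgebra.norm z = z.re * z.re + t * z.re * z.im + z.im * z.im := by
  rw [QuadraticAlgebra.norm_def]
  ring

private theorem EUC_nonneg (t : ℤ) (ht : t = 0 ∨ t = 1) (z : Oz t) : 0 ≤ QuadraticAlgebra.norm z := by
  rw [EUC_norm]
  rcases ht with rfl | rfl
  · nlinarith [sq_nonneg z.re, sq_nonneg z.im]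
  · nlinarith [sq_nonneg (z.re + z.im), sq_nonneg z.re, sq_nonneg z.im]

private theorem EUC_pos (t : ℤ) (ht : t = 0 ∨ t = 1) (z : Oz t) (hz : z ≠ 0) : 0 < QuadraticAlgebra.norm z := by
  rcases (EUC_nonneg t ht z).lt_or_eq with h | h
  · exact h
  · exfalso
    apply hz
    rw [EUC_norm] at h
    have h1 : z.re = 0 ∧ z.im = 0 := by
      rcases ht with rfl | rfl
      · have a : z.re ^ 2 = 0 := by nlinarith [sq_nonneg z.re, sq_nonneg z.im]
        have b : z.im ^ 2 = 0 := by nlinarith [sq_nonneg z.re, sq_nonneg z.im]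
        exact ⟨pow_eq_zero_iff (by norm_num) |>.1 a, pow_eq_zero_iff (by norm_num) |>.1 b⟩
      · have a : z.re ^ 2 = 0 := by nlinarith [sq_nonneg (z.re + z.im), sq_nonneg z.re, sq_nonneg z.im]
        have b : z.im ^ 2 = 0 := by nlinarith [sq_nonneg (z.re + z.im), sq_nonneg z.re, sq_nonneg z.im]
        exact ⟨pow_eq_zero_iff (by norm_num) |>.1 a, pow_eq_zero_iff (by norm_num) |>.1 b⟩
    exact QuadraticAlgebra.ext h1.1 h1.2

private theorem EUC_round (N s : ℤ) (hN : 0 < N) : ∃ h : ℤ, -N ≤ 2 * (s - h * N) ∧ 2 * (s - h * N) ≤ N := by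
  refine ⟨(2 * s + N) / (2 * N), ?_⟩
  have h1 := Int.emod_nonneg (2 * s + N) (by omega : (2 * N) ≠ 0)
  have h2 := Int.emod_lt_of_pos (2 * s + N) (by omega : 0 < 2 * N)
  have h3 := Int.mul_ediv_add_emod (2 * s + N) (2 * N)
  constructor <;> nlinarith

theorem EUC : EUC_stmt := by
  intro t ht p q hq
  have hN := EUC_pos t ht q hq
  set N := QuadraticAlgebra.norm q with hNdef
  obtain ⟨h1, a1, b1⟩ := EUC_round N (p * star q).re hN
  obtain ⟨h2, a2, b2⟩ := EUC_round N (p * star q).im hN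
  refine ⟨⟨h1, h2⟩, ?_, EUC_nonneg t ht _⟩
  have e1 : (p - ⟨h1, h2⟩ * q) * star q = p * star q - ⟨h1, h2⟩ * algebraMap ℤ (Oz t) N := by
    rw [hNdef, QuadraticAlgebra.algebraMap_norm_eq_mul_star]
    ring
  have e2 : QuadraticAlgebra.norm (p - ⟨h1, h2⟩ * q) * N =
      QuadraticAlgebra.norm (p * star q - ⟨h1, h2⟩ * algebraMap ℤ (Oz t) N) := by
    rw [← e1, map_mul, QuadraticAlgebra.norm_star]
  have r1 : (p * star q - (⟨h1, h2⟩ : Oz t) * algebraMap ℤ (Oz t) N).re = (p * star q).re - h1 * N := by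
    simp
  have r2 : (p * star q - (⟨h1, h2⟩ : Oz t) * algebraMap ℤ (Oz t) N).im = (p * star q).im - h2 * N := by
    simp
  rw [EUC_norm t (p * star q - (⟨h1, h2⟩ : Oz t) * algebraMap ℤ (Oz t) N), r1, r2] at e2
  set u := (p * star q).re - h1 * N with hu
  set v := (p * star q).im - h2 * N with hv
  have hlt : QuadraticAlgebra.norm (p - ⟨h1, h2⟩ * q) * N < N * N := by
    rw [e2]
    rcases ht with rfl | rfl
    · nlinarith
    · nlinarith [mul_nonneg (by linarith : (0 : ℤ) ≤ N - 2 * u) (by linarith : (0 : ℤ) ≤ N + 2 * v), mul_nonneg (by linarith : (0 : ℤ) ≤ N + 2 * u) (by linarith : (0 : ℤ) ≤ N - 2 * v),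
        mul_nonneg (by linarith : (0 : ℤ) ≤ N - 2 * u) (by linarith : (0 : ℤ) ≤ N - 2 * v), mul_nonneg (by linarith : (0 : ℤ) ≤ N + 2 * u) (by linarith : (0 : ℤ) ≤ N + 2 * v),
        mul_nonneg (by linarith : (0 : ℤ) ≤ N - 2 * u) (by linarith : (0 : ℤ) ≤ N + 2 * u), mul_nonneg (by linarith : (0 : ℤ) ≤ N - 2 * v) (by linarith : (0 : ℤ) ≤ N + 2 * v), mul_pos hN hN]
  exact lt_of_mul_lt_mul_right hlt hN.le

end Pool.Agent.OD
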