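import Pool.Agent.helper21.OD.SpecA

/-!
# Project OD, row NRU: units have norm one
-/

namespace Pool.Agent.OD

theorem NRU : NRU_stmt := by
  intro t ht z hz
  have h1 : IsUnit (QuadraticAlgebra.norm z) := hz.map QuadraticAlgebra.norm
  have h2 : QuadraticAlgebra.norm z = z.re * z.re + t * z.re * z.im + z.im * z.im := by
    rw [QuadraticAlgebra.norm_def]
    ring
  have h3 : 0 ≤ QuadraticAlgebra.norm z := by
    rw [h2]
    rcases ht with rfl | rfl
    · nlinarith [sq_nonneg z.re, sq_nonneg z.im]
    · nlinarith [sq_nonneg (z.re + z.im), sq_nonneg z.re, sq_nonneg z.im]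
  have h4 : QuadraticAlgebra.norm z = 1 := by
    rcases Int.isUnit_iff.1 h1 with h | h
    · exact h
    · rw [h] at h3
      omega
  rw [← QuadraticAlgebra.algebraMap_norm_eq_mul_star, h4, map_one]

end Pool.Agent.OD
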